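import Pool.Agent.Lead.IP.Doeblin

/-!
# Commuting double row transfer matrices

`Td n δ b` is the double row transfer matrix of `Pool.Agent.Lead.IP` (`Td n 0 b = Tt n b`) whose
auxiliary line has the spectral parameter `π/6 + δ`.  All these matrices commute on the states with
`n` columns (Sklyanin), hence `P n b` is stationary for all of them.
-/

namespace IP
open Finset Real

/-- double row transfer matrix, auxiliary parameter `π/6 + δ` -/
noncomputable def Td (n : ℕ) (δ : ℝ) (b : ℕ → ℝ) : M →ₗ[ℝ] M :=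
  De 0 ∘ₗ row 1 (fun j => b j + -δ) (2 * n + 1) ∘ₗ row 0 (fun j => b j + δ) (2 * n + 1)

theorem Td_apply (n : ℕ) (δ : ℝ) (b : ℕ → ℝ) (v : M) : Td n δ b v =
    De 0 (row 1 (fun j => b j + -δ) (2 * n + 1) (row 0 (fun j => b j + δ) (2 * n + 1) v)) := rfl

theorem Td_zero (n : ℕ) (b : ℕ → ℝ) : Td n 0 b = Tt n b := by
  unfold Td Tt
  simp only [neg_zero, add_zero]

/-- normalisation -/
noncomputable def nrmd (n : ℕ) (δ : ℝ) (b : ℕ → ℝ) : ℝ :=
  ∏ j ∈ range (2 * n + 1), s (b j + δ + π / 6) * s (b j + -δ + π / 6)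

theorem tot_Td (n : ℕ) (δ : ℝ) (b : ℕ → ℝ) (v : M) : tot (Td n δ b v) = nrmd n δ b * tot v := by
  rw [Td_apply, tot_De, tot_row, tot_row]
  unfold nrmd
  rw [prod_mul_distrib]
  ring

theorem Td_Sup (n : ℕ) (δ : ℝ) (b : ℕ → ℝ) {v : M} (hv : v ∈ Sup (W n)) :
    Td n δ b v ∈ Sup (W n) := by
  rw [Td_apply]
  apply De_Sup (by omega)
  apply row_Sup 1 _ _ (by omega)
  apply row_Sup 0 _ _ (by omega)
  exact Sup_mono (by omega) hv

/-- two consecutive rows are exchanged by an R-matrix -/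
theorem row_row (off : ℕ) (b : ℕ → ℝ) (x y : ℝ) (k : ℕ) (v : M) :
    Rt off (x - y) (row (off + 1) (fun j => b j + x) k (row off (fun j => b j + y) k v)) =
      row (off + 1) (fun j => b j + y) k (row off (fun j => b j + x) k (Rt (off + k) (x - y) v)) := by
  induction k generalizing v with
  | zero => rfl
  | succ k ih =>
    rw [row_succ (off + 1), row_succ off, Rt_row_right off _ k (by omega : off + k + 1 ≤ off + 1 + k),
      ih, show off + 1 + k = off + k + 1 by omega]
    have h := yang_baxter (off + k) (x - y) (b k + y + π / 6) v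
    rw [show x - y + (b k + y + π / 6) = b k + x + π / 6 by ring] at h
    rw [h, row_succ (off + 1), row_succ off, show off + 1 + k = off + k + 1 by omega,
      show off + (k + 1) = off + k + 1 by omega,
      Rt_row_right off _ k (le_refl (off + k + 1))]

/-- `De 0` and rows -/
theorem De_row (off : ℕ) (b : ℕ → ℝ) (k : ℕ) (v : M) :
    De 0 (row (off + 2) b k v) = row off b k (De 0 v) := by
  induction k generalizing v with
  | zero => rfl
  | succ k ih =>
    rw [row_succ, row_succ, ih, show off + 2 + k = off + k + 2 by omega,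
      De_Rt_gt (Nat.zero_le (off + k))]

theorem De_De_E0 (v : M) : De 0 (De 0 (E 0 v)) = De 0 (De 0 v) := by rw [De_E]

theorem De_De_E2 (v : M) : De 0 (De 0 (E 2 v)) = De 0 (De 0 v) := by
  rw [De_E_gt (le_refl 0), De_E]

theorem De_De_E1E0 (v : M) : De 0 (De 0 (E 1 (E 0 v))) = De 0 (De 0 v) := by
  rw [De_E_succ, De_succ_E]

theorem De_De_E1E2 (v : M) : De 0 (De 0 (E 1 (E 2 v))) = De 0 (De 0 v) := by
  rw [← De_De_E2 (E 1 (E 2 v)), E_braid' 1, De_De_E2]

/-- the left boundary -/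
theorem left_boundary (x z : ℝ) (v : M) :
    De 0 (De 0 (Rt 1 (-z) (Rt 0 x (Rt 2 (-x) (Rt 1 z v))))) =
      (s x * s (-x) * s z * s (-z)) • De 0 (De 0 v) := by
  have hx := s_zero_sub x
  have hz := s_zero_sub z
  -- the functionals `DD` and `DD E 1`
  have a1 : ∀ w : M, De 0 (De 0 (Rt 1 (-z) w)) =
      s z • De 0 (De 0 w) - Real.sin z • De 0 (De 0 (E 1 w)) := by
    intro w
    rw [Rt_apply, neg_neg, Real.sin_neg, neg_smul, ← sub_eq_add_neg]
    simp only [map_sub, map_smul]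
  have a2 : ∀ w : M, De 0 (De 0 (Rt 0 x w)) = s x • De 0 (De 0 w) := by
    intro w
    rw [Rt_apply]
    simp only [map_add, map_smul, De_De_E0]
    rw [← add_smul]
    congr 1
    linarith
  have a3 : ∀ w : M, De 0 (De 0 (E 1 (Rt 0 x w))) =
      s (-x) • De 0 (De 0 (E 1 w)) + Real.sin x • De 0 (De 0 w) := by
    intro w
    rw [Rt_apply]
    simp only [map_add, map_smul, De_De_E1E0]
  have a4 : ∀ w : M, De 0 (De 0 (Rt 2 (-x) w)) = s (-x) • De 0 (De 0 w) := by
    intro w
    rw [Rt_apply, neg_neg, Real.sin_neg]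
    simp only [map_add, map_smul, De_De_E2]
    rw [← add_smul]
    congr 1
    linarith
  have a5 : ∀ w : M, De 0 (De 0 (E 1 (Rt 2 (-x) w))) =
      s x • De 0 (De 0 (E 1 w)) - Real.sin x • De 0 (De 0 w) := by
    intro w
    rw [Rt_apply, neg_neg, Real.sin_neg, neg_smul, ← sub_eq_add_neg]
    simp only [map_sub, map_smul, De_De_E1E2]
  have a6 : ∀ w : M, De 0 (De 0 (Rt 1 z w)) =
      s (-z) • De 0 (De 0 w) + Real.sin z • De 0 (De 0 (E 1 w)) := by
    intro w
    rw [Rt_apply]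
    simp only [map_add, map_smul]
  have a7 : ∀ w : M, De 0 (De 0 (E 1 (Rt 1 z w))) = s z • De 0 (De 0 (E 1 w)) := by
    intro w
    rw [Rt_apply]
    simp only [map_add, map_smul, E_E]
    rw [← add_smul]
    congr 1
    linarith
  rw [a1, a2, a3, a4, a5, a6, a7]
  match_scalars
  · linear_combination (-(s x * s (-x) * Real.sin z) : ℝ) * hz * 0 + 0 * hx
  · linear_combination 0 * hx

/-- the right boundary -/
theorem right_boundary (n : ℕ) (x z : ℝ) {v : M} (hv : v ∈ Sup (W n)) :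
    Rt (2 * n + 2) (-z) (Rt (2 * n + 1) x (Rt (2 * n + 3) (-x) (Rt (2 * n + 2) z v))) =
      (s x * s (-x) * s z * s (-z)) • v := by
  have hx := s_zero_sub x
  have hz := s_zero_sub z
  have e1 : E (2 * n + 1) v = v := E_wall le_rfl hv
  have e3 : E (2 * n + 3) v = v := E_wall (k := n + 1) (by omega) hv
  have e12 : E (2 * n + 1) (E (2 * n + 2) v) = v := by
    have := E_braid (2 * n + 1) v
    rwa [e1] at this
  have e32 : E (2 * n + 3) (E (2 * n + 2) v) = v := by
    have := E_braid' (2 * n + 2) v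
    rwa [show 2 * n + 2 + 1 = 2 * n + 3 by omega, e3] at this
  simp only [Rt_apply, map_add, map_smul, smul_add, smul_smul, e1, e3, e12, e32, E_E, neg_neg,
    Real.sin_neg]
  match_scalars
  · linear_combination (s (-z) * s z * Real.sin x + s z * Real.sin x * Real.sin z) * hx
  · linear_combination (s x * s (-x) * Real.sin z) * hz -
      (s (-z) * Real.sin z * Real.sin x + Real.sin z ^ 2 * Real.sin x) * hx

/-- **The double row transfer matrices commute** (up to the common factor). -/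
theorem Td_comm_mul (n : ℕ) (δ ε : ℝ) (b : ℕ → ℝ) {v : M} (hv : v ∈ Sup (W n)) :
    (s (ε - δ) * s (-(ε - δ)) * s (ε + δ) * s (-(ε + δ))) • Td n ε b (Td n δ b v) =
      (s (ε - δ) * s (-(ε - δ)) * s (ε + δ) * s (-(ε + δ))) • Td n δ b (Td n ε b v) := by
  have key : ∀ (α β : ℝ) (v : M), Td n α b (Td n β b v) = De 0 (De 0
      (row 3 (fun j => b j + -α) (2 * n + 1) (row 2 (fun j => b j + α) (2 * n + 1)
        (row 1 (fun j => b j + -β) (2 * n + 1) (row 0 (fun j => b j + β) (2 * n + 1) v))))) := by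
    intro α β v
    rw [Td_apply, Td_apply, ← De_row, ← De_row]
  rw [key, key, ← left_boundary, ← map_smul (De 0), ← map_smul (De 0)]
  congr 2
  have h1 := row_row 1 b ε (-δ) (2 * n + 1)
  have h2 := row_row 2 b (-ε) (-δ) (2 * n + 1)
  have h3 := row_row 0 b ε δ (2 * n + 1)
  have h4 := row_row 1 b (-ε) δ (2 * n + 1)
  rw [sub_neg_eq_add] at h1
  rw [show -ε - -δ = -(ε - δ) by ring] at h2
  rw [show -ε - δ = -(ε + δ) by ring] at h4
  rw [Nat.zero_add, Nat.zero_add] at h3
  rw [show 1 + 1 = 2 by rfl, show 1 + (2 * n + 1) = 2 * n + 2 by omega] at h1 h4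
  rw [show 2 + 1 = 3 by rfl, show 2 + (2 * n + 1) = 2 * n + 3 by omega] at h2
  have r3 : ∀ (j : ℕ) (hj : j + 2 ≤ 3) (u c : ℝ) (w : M),
      Rt j u (row 3 (fun j => b j + c) (2 * n + 1) w) =
        row 3 (fun j => b j + c) (2 * n + 1) (Rt j u w) :=
    fun j hj u c w => Rt_row_left 3 _ _ hj u w
  have r2 : ∀ (u c : ℝ) (w : M),
      Rt 0 u (row 2 (fun j => b j + c) (2 * n + 1) w) =
        row 2 (fun j => b j + c) (2 * n + 1) (Rt 0 u w) :=
    fun u c w => Rt_row_left 2 _ _ (le_refl 2) u w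
  have q1 : ∀ (u c : ℝ) (w : M),
      Rt (2 * n + 3) u (row 1 (fun j => b j + c) (2 * n + 1) w) =
        row 1 (fun j => b j + c) (2 * n + 1) (Rt (2 * n + 3) u w) :=
    fun u c w => Rt_row_right 1 _ _ (by omega) u w
  have q0 : ∀ (j : ℕ) (hj : 2 * n + 2 ≤ j) (u c : ℝ) (w : M),
      Rt j u (row 0 (fun j => b j + c) (2 * n + 1) w) =
        row 0 (fun j => b j + c) (2 * n + 1) (Rt j u w) :=
    fun j hj u c w => Rt_row_right 0 _ _ (by omega) u w
  rw [r3 1 (by omega), h1, q0 (2 * n + 2) le_rfl, h2, q1, q0 (2 * n + 3) (by omega),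
    r3 0 (by omega), r2, h3, r3 1 (by omega), h4, q0 (2 * n + 2) le_rfl, right_boundary n _ _ hv]
  simp only [map_smul]

theorem s_pos' {x : ℝ} (hx : |x| < π / 3) : 0 < s x := by
  have h := abs_lt.1 hx
  exact Real.sin_pos_of_pos_of_lt_pi (by linarith [h.1]) (by linarith [h.2, Real.pi_pos])

/-- the transfer matrices commute -/
theorem Td_comm (n : ℕ) {δ ε : ℝ} (h1 : |ε - δ| < π / 3) (h2 : |ε + δ| < π / 3) (b : ℕ → ℝ)
    {v : M} (hv : v ∈ Sup (W n)) : Td n ε b (Td n δ b v) = Td n δ b (Td n ε b v) := by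
  have h := Td_comm_mul n δ ε b hv
  have hs : s (ε - δ) * s (-(ε - δ)) * s (ε + δ) * s (-(ε + δ)) ≠ 0 :=
    (mul_pos (mul_pos (mul_pos (s_pos' h1) (s_pos' (by rwa [abs_neg]))) (s_pos' h2))
      (s_pos' (by rwa [abs_neg]))).ne'
  exact smul_right_injective M hs h

/-- **Universality of the stationary vector.**  `P n b` does not depend on the spectral parameter of
the rows. -/
theorem Td_P (n : ℕ) {δ : ℝ} (hδ : |δ| < π / 3) {b : ℕ → ℝ} (hb : b ∈ Cube) :
    Td n δ b (P n b) = nrmd n δ b • P n b := by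
  have h1 : Td n 0 b (Td n δ b (P n b)) = Td n δ b (Td n 0 b (P n b)) :=
    Td_comm n (by rwa [zero_sub, abs_neg]) (by rwa [zero_add]) b (P_Sup n b)
  rw [Td_zero, Tt_P n hb, map_smul] at h1
  have h2 := P_unique n hb (Td_Sup n δ b (P_Sup n b)) h1
  rw [tot_Td, tot_P n hb, mul_one] at h2
  exact h2

end IP
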